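import Pool.Agent.X326.SM.Small

/-!
# MP_5035a9_ag, Q1: `ℳ₃` is not closed upward under classical pattern containment

`p = 345612 ∈ ℳ₃`, `w = 4567312` contains `p`, and the multiplicity of `X_w` at every `e_u ∈ X_w` is
`1` or `2`, so `w ∉ ℳ₃`.  (One-line notations below are written with the values `0, 1, ...`.)
-/

namespace Pool.Agent.Results.MP_5035a9_ag.NotUpwardClosed

open Pool.Agent.X326.SM
open Pool.Agent.TH151.SchubMult (ContainsPattern wperm_val)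

theorem result :
    (¬ ∀ (m n : ℕ) (p : Equiv.Perm (Fin m)) (w : Equiv.Perm (Fin n)),
      (⟨m, p⟩ : Σ n : ℕ, Equiv.Perm (Fin n)) ∈ M3 → ContainsPattern w p →
        (⟨n, w⟩ : Σ n : ℕ, Equiv.Perm (Fin n)) ∈ M3) ∧
    ∃ (p : Equiv.Perm (Fin 6)) (w : Equiv.Perm (Fin 7)),
      (∀ j, p j = ![2, 3, 4, 5, 0, 1] j) ∧ (∀ j, w j = ![3, 4, 5, 6, 2, 0, 1] j) ∧
      ContainsPattern w p ∧
      (∃ e : ℝ, IsMultAt p 1 e ∧ 3 ≤ e) ∧
      (⟨6, p⟩ : Σ n : ℕ, Equiv.Perm (Fin n)) ∈ M3 ∧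
      (⟨7, w⟩ : Σ n : ℕ, Equiv.Perm (Fin n)) ∉ M3 ∧
      ∀ u, PointMem w u → IsMultAt w u 1 ∨ IsMultAt w u 2 := by
  obtain ⟨s, hs3, hs⟩ := psmall_mem
  have hs3' : (3 : ℝ) ≤ s := by exact_mod_cast hs3
  have h1 : (⟨6, psmall⟩ : Σ n : ℕ, Equiv.Perm (Fin n)) ∈ M3 := ⟨1, s, hs, hs3'⟩
  have h2 : (⟨7, wbig⟩ : Σ n : ℕ, Equiv.Perm (Fin n)) ∉ M3 := by
    rintro ⟨u, e, he, he3⟩
    rcases wbig_mult u he.1 with h | h
    · have := isMultAt_unique he h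
      linarith
    · have := isMultAt_unique he h
      linarith
  refine ⟨fun h => h2 (h 6 7 psmall wbig h1 wbig_contains), psmall, wbig, ?_, ?_, wbig_contains,
    ⟨s, hs, hs3'⟩, h1, h2, wbig_mult⟩
  · intro j
    apply Fin.ext
    rw [psmall, wperm_val]
    fin_cases j <;> rfl
  · intro j
    apply Fin.ext
    rw [wbig, wperm_val]
    fin_cases j <;> rfl

end Pool.Agent.Results.MP_5035a9_ag.NotUpwardClosed
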